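import Pool.Agent.helper62.DP8.Spec

/-!
# Project sq8: module BCH

The partial colouring of the vertices `1`, ..., `m` of the cycle is extended step by step to the vertices `1`, ..., `g - 2`.
-/

set_option autoImplicit false

namespace Pool.Agent.helper62.DP8

theorem BCH_step (hPIG : PIG_stmt) (g : ℕ) (W : Type) (a : ℕ → Finset W) (R : W → W → Prop) (t : ℕ → Bool → W → Prop)
    (hC : Cyc g W a R t) (m : ℕ) (c : ℕ → W) (hm : 2 ≤ m) (hB : ChB W a R t m c) :
    ∃ c' : ℕ → W, ChB W a R t (m + 1) c' := by
  classical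
  obtain ⟨s, hs1, hs2⟩ := hB.pm
  have hg := hC.g5
  have hcm : c m ∈ a m := hB.mem m (by omega) le_rfl
  have hcm1 : c (m - 1) ∈ a (m - 1) := hB.mem (m - 1) (by omega) (by omega)
  have key := hPIG W (a (m + 1)) [R (c m), R (c (m - 1)), t m s, t (m + 2) true, t (m + 2) false]
    (by
      have := hC.six (m + 1)
      simp only [List.length_cons, List.length_nil]
      omega)
    (by
      intro p hp x hx y hy hpx hpy
      simp only [List.mem_cons, List.not_mem_nil, or_false] at hp
      rcases hp with rfl | rfl | rfl | rfl | rfl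
      · exact hC.mat m (m + 1) (by omega) (by omega) (c m) hcm x hx y hy hpx hpy
      · exact hC.mat (m - 1) (m + 1) (by omega) (by omega) (c (m - 1)) hcm1 x hx y hy hpx hpy
      · exact hC.one m m s le_rfl (by omega) x hx y hy hpx hpy
      · exact hC.one m (m + 2) true (by omega) le_rfl x hx y hy hpx hpy
      · exact hC.one m (m + 2) false (by omega) le_rfl x hx y hy hpx hpy)
  obtain ⟨x, hx, hxP⟩ := key
  have e1 : ¬ R (c m) x := hxP (R (c m)) (by simp)
  have e2 : ¬ R (c (m - 1)) x := hxP (R (c (m - 1))) (by simp)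
  have e3 : ¬ t m s x := hxP (t m s) (by simp)
  have e4 : ¬ t (m + 2) true x := hxP (t (m + 2) true) (by simp)
  have e5 : ¬ t (m + 2) false x := hxP (t (m + 2) false) (by simp)
  have hold : ∀ j, j ≤ m → Function.update c (m + 1) x j = c j := by
    intro j hj
    exact Function.update_of_ne (by omega) _ _
  have hnew : Function.update c (m + 1) x (m + 1) = x := Function.update_self _ _ _
  refine ⟨Function.update c (m + 1) x, ?_, ?_, ?_, ?_, ?_, ?_, ?_⟩
  · intro j h1 h2
    rcases Nat.lt_or_ge m j with h | h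
    · obtain rfl : j = m + 1 := by omega
      rw [hnew]; exact hx
    · rw [hold j h]; exact hB.mem j h1 h
  · intro j h1 h2
    rcases Nat.lt_or_ge m (j + 1) with h | h
    · obtain rfl : j = m := by omega
      rw [hnew, hold j le_rfl]; exact e1
    · rw [hold j (by omega), hold (j + 1) h]; exact hB.r1 j h1 h
  · intro j h1 h2
    rcases Nat.lt_or_ge m (j + 2) with h | h
    · have hj2 : j + 2 = m + 1 := by omega
      have hj : j = m - 1 := by omega
      rw [hj2, hnew, hold j (by omega), hj]; exact e2
    · rw [hold j (by omega), hold (j + 2) h]; exact hB.r2 j h1 h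
  · intro s'
    rw [hold 1 (by omega), hold 2 hm]
    exact hB.p1 s'
  · intro j h1 h2
    rcases Nat.lt_or_ge m (j + 2) with h | h
    · have hj2 : j + 2 = m + 1 := by omega
      have hj1 : j + 1 = m := by omega
      have hj : j = m - 1 := by omega
      refine ⟨s, ?_, ?_, ?_⟩
      · rw [hold j (by omega), hj1, hj]; exact hs1
      · rw [hj1, hold m le_rfl]; exact hs2
      · rw [hj2, hnew, hj1]; exact e3
    · rw [hold j (by omega), hold (j + 1) (by omega), hold (j + 2) h]; exact hB.pn j h1 h
  · rw [Nat.add_sub_cancel, hold m le_rfl, hnew]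
    by_cases ht : t (m + 1) true x
    · refine ⟨false, hB.nf false, fun hf => hC.sgn m (m + 1) (by omega) (by omega) x hx ⟨ht, hf⟩⟩
    · exact ⟨true, hB.nf true, ht⟩
  · intro s'
    rw [hnew]
    cases s'
    · exact e5
    · exact e4

theorem BCH (hPIG : PIG_stmt) : BCH_stmt := by
  intro g W a R t hC m c hm hmg hB
  have key : ∀ k : ℕ, m + k ≤ g - 2 → ∃ c' : ℕ → W, ChB W a R t (m + k) c' := by
    intro k
    induction k with
    | zero => intro _; exact ⟨c, hB⟩
    | succ k ih =>
      intro hk
      obtain ⟨c', hc'⟩ := ih (by omega)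
      obtain ⟨c'', hc''⟩ := BCH_step hPIG g W a R t hC (m + k) c' (by omega) hc'
      exact ⟨c'', hc''⟩
  obtain ⟨c', hc'⟩ := key (g - 2 - m) (by omega)
  rw [show m + (g - 2 - m) = g - 2 by omega] at hc'
  exact ⟨c', hc'⟩

end Pool.Agent.helper62.DP8

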